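import Pool.Agent.Helper19.SQ.GoalsQ2

/-! Packet SQ-YF (MP_bb32d1_al). -/

namespace Pool.Agent.Helper79.SQ

open Pool.Agent.Helper19.SQ Matrix

theorem pr_self (k : ℕ) : pr k k = 1 := by simp [pr]
theorem pr_succ (k : ℕ) : pr (k + 1) k = -1 := by simp [pr]
theorem pr_other {a k : ℕ} (h1 : a ≠ k) (h2 : a ≠ k + 1) : pr a k = 0 := by simp [pr, h1, h2]

section

variable {B : Type} [Ring B] [Algebra ℂ B]

theorem Yent_self (q : ℂ) (F K : ℕ → B) (a : ℕ) : Yent q F K a a = K a := by simp [Yent]

theorem Yent_lt (q : ℂ) (F K : ℕ → B) {a b : ℕ} (h : a < b) :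
    Yent q F K a b = (q - q⁻¹) • (K a * rvo q F a b) := by
  unfold Yent
  rw [if_neg (ne_of_lt h), if_pos h]

theorem Yent_gt (q : ℂ) (F K : ℕ → B) {a b : ℕ} (h : b < a) : Yent q F K a b = 0 := by
  unfold Yent
  rw [if_neg (ne_of_gt h), if_neg (by omega)]

theorem rvo_base (q : ℂ) (F : ℕ → B) (k : ℕ) : rvo q F k (k + 1) = F k := by
  unfold rvo
  have : k + 1 - k - 1 = 0 := by omega
  rw [this]
  rfl

theorem rvo_def (q : ℂ) (F : ℕ → B) {k b : ℕ} (h : k + 1 < b) :
    rvo q F k b = rvo q F (k + 1) b * F k - q⁻¹ • (F k * rvo q F (k + 1) b) := by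
  unfold rvo
  obtain ⟨d, rfl⟩ : ∃ d, b = k + d + 2 := ⟨b - k - 2, by omega⟩
  have e1 : k + d + 2 - k - 1 = d + 1 := by omega
  have e2 : k + d + 2 - (k + 1) - 1 = d := by omega
  rw [e1, e2]
  rfl

/-- the identity (*) between opposite root vectors -/
theorem core (hRO : S_RO) {q : ℂ} {F : ℕ → B} (hq : q ≠ 0) (hq2 : q ^ 2 ≠ -1)
    (hs : SerreRel q F) {a b k : ℕ} (hab : a < b) :
    q ^ (-pr b k) • (rvo q F a b * F k) + (if b = k then rvo q F a (k + 1) else 0)
      = (if a = k + 1 then rvo q F k b else 0) + q ^ pr a k • (F k * rvo q F a b) := by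
  obtain ⟨r1, r2, r3, r4, r5⟩ := hRO B q F hq hq2 hs
  rcases lt_trichotomy a k with hak | hak | hak
  · -- a < k
    rw [pr_other (a := a) (by omega) (by omega), if_neg (show ¬ a = k + 1 by omega), zpow_zero,
      one_smul, zero_add]
    rcases lt_trichotomy b k with hbk | hbk | hbk
    · rw [pr_other (a := b) (by omega) (by omega), if_neg (by omega)]
      rw [neg_zero, zpow_zero, one_smul, add_zero, r1 a b k hab (Or.inr hbk)]
    · subst hbk
      rw [pr_self, if_pos rfl, r2 a b hab, _root_.zpow_neg_one]
      abel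
    · rw [if_neg (show ¬ b = k by omega), add_zero]
      by_cases h : b = k + 1
      · subst h
        rw [pr_succ, neg_neg, zpow_one, ← r4 a k hak]
      · rw [pr_other (a := b) (by omega) h, neg_zero, zpow_zero, one_smul,
          r5 a b k hak (by omega)]
  · subst hak
    rw [pr_self, if_neg (show ¬ a = a + 1 by omega), if_neg (show ¬ b = a by omega), add_zero,
      zero_add, zpow_one]
    by_cases h : b = a + 1
    · subst h
      rw [pr_succ, neg_neg, zpow_one, rvo_base]
    · rw [pr_other (a := b) (by omega) h, neg_zero, zpow_zero, one_smul, r3 a b (by omega)]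
  · rw [if_neg (show ¬ b = k by omega), add_zero,
      pr_other (a := b) (by omega) (by omega), neg_zero, zpow_zero, one_smul]
    by_cases h : a = k + 1
    · subst h
      rw [if_pos rfl, pr_succ, _root_.zpow_neg_one, rvo_def q F hab]
      abel
    · rw [if_neg h, zero_add, pr_other (a := a) (by omega) h, zpow_zero, one_smul,
        r1 a b k hab (Or.inl (by omega))]

/-- the entries -/
theorem ent (hRO : S_RO) (hKI : S_KI) {N l : ℕ} {q : ℂ} {E F K : ℕ → B} (hl : 1 ≤ l)
    (hq : q ≠ 0) (hq2 : q ^ 2 ≠ -1) (h : GlRel N l q E F K) {a b k : ℕ} :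
    q ^ (-pr b k) • (Yent q F K a b * F k) + (if b = k then Yent q F K a (k + 1) else 0)
      = (if a = k + 1 then K (k + 1) * ki l K k * Yent q F K k b else 0)
        + F k * Yent q F K a b := by
  obtain ⟨i1, i2, i3, i4, i5, i6⟩ := hKI B l K hl h.K_comm h.K_pow
  have hFK : ∀ a, F k * K a = q ^ pr a k • (K a * F k) := by
    intro a
    rw [h.KF a k, smul_smul, ← zpow_add₀ hq, add_neg_cancel, zpow_zero, one_smul]
  rcases lt_trichotomy a b with hab | hab | hab
  · rw [Yent_lt q F K hab]
    have hc := core hRO hq hq2 h.sF (k := k) hab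
    have e1 : (if b = k then Yent q F K a (k + 1) else 0)
        = (q - q⁻¹) • (K a * (if b = k then rvo q F a (k + 1) else 0)) := by
      by_cases hb : b = k
      · rw [if_pos hb, if_pos hb, Yent_lt q F K (by omega)]
      · rw [if_neg hb, if_neg hb, mul_zero, smul_zero]
    have e2 : (if a = k + 1 then K (k + 1) * ki l K k * Yent q F K k b else 0)
        = (q - q⁻¹) • (K a * (if a = k + 1 then rvo q F k b else 0)) := by
      by_cases ha : a = k + 1
      · rw [if_pos ha, if_pos ha, Yent_lt q F K (by omega), mul_smul_comm, ha]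
        congr 1
        rw [mul_assoc, ← mul_assoc (ki l K k), i2 k, one_mul]
      · rw [if_neg ha, if_neg ha, mul_zero, smul_zero]
    have e3 : F k * ((q - q⁻¹) • (K a * rvo q F a b))
        = (q - q⁻¹) • (K a * (q ^ pr a k • (F k * rvo q F a b))) := by
      rw [mul_smul_comm, ← mul_assoc, hFK a, smul_mul_assoc, mul_smul_comm, mul_assoc]
    have e4 : q ^ (-pr b k) • ((q - q⁻¹) • (K a * rvo q F a b) * F k)
        = (q - q⁻¹) • (K a * (q ^ (-pr b k) • (rvo q F a b * F k))) := by
      rw [smul_mul_assoc, smul_comm, mul_assoc, mul_smul_comm]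
    rw [e1, e2, e3, e4, ← smul_add, ← smul_add, ← mul_add, ← mul_add, hc]
  · subst hab
    rw [Yent_self]
    have hK : K a * F k = q ^ (-pr a k) • (F k * K a) := h.KF a k
    by_cases h1 : a = k
    · subst h1
      rw [if_pos rfl, if_neg (show ¬ a = a + 1 by omega), Yent_lt q F K (by omega), rvo_base, hK,
        pr_self, smul_smul, smul_smul, zero_add, ← add_smul, _root_.zpow_neg_one]
      have : q⁻¹ * q⁻¹ + (q - q⁻¹) * q⁻¹ = 1 := by field_simp; ring
      rw [this, one_smul]
    · rw [if_neg h1, add_zero]
      by_cases h2 : a = k + 1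
      · subst h2
        rw [if_pos rfl, Yent_lt q F K (by omega), rvo_base, pr_succ, neg_neg, zpow_one,
          mul_smul_comm, mul_assoc (K (k + 1)), ← mul_assoc (ki l K k), i2 k, one_mul, hK,
          pr_succ, neg_neg, zpow_one, smul_smul, smul_smul]
        have e : (F k * K (k + 1) : B) = (1 : ℂ) • (F k * K (k + 1)) := (one_smul _ _).symm
        conv_rhs => rw [e, smul_smul, ← add_smul]
        congr 1
        field_simp
        ring
      · rw [if_neg h2, zero_add, hK, pr_other h1 h2, neg_zero, zpow_zero, one_smul, one_smul]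
  · rw [Yent_gt q F K hab, zero_mul, smul_zero, mul_zero, zero_add, add_zero]
    by_cases hb : b = k
    · subst hb
      rw [if_pos rfl]
      by_cases ha : a = b + 1
      · subst ha
        rw [if_pos rfl, Yent_self, Yent_self, mul_assoc, i2 b, mul_one]
      · rw [if_neg ha, Yent_gt q F K (by omega)]
    · rw [if_neg hb]
      by_cases ha : a = k + 1
      · rw [if_pos ha, Yent_gt q F K (by omega), mul_zero]
      · rw [if_neg ha]

end

theorem sYF (hRO : S_RO) (hKI : S_KI) : S_YF := by
  intro B _ _ N l q E F K hPar h k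
  have hl : 1 ≤ l := by have := hPar.h3; omega
  have hq : q ≠ 0 := hPar.prim.ne_zero (by omega)
  have hq2 : q ^ 2 ≠ -1 := by
    intro hc
    have h4 : q ^ 4 = 1 := by
      have : q ^ 4 = (q ^ 2) ^ 2 := by ring
      rw [this, hc]; ring
    have hd := hPar.prim.dvd_of_pow_eq_one 4 h4
    have h3 := hPar.h3
    have ho := hPar.odd
    have hle := Nat.le_of_dvd (by norm_num) hd
    obtain ⟨c, hc2⟩ := hd
    obtain ⟨e, he⟩ := ho
    have : l = 3 ∨ l = 4 := by omega
    rcases this with h5 | h5
    · rw [h5] at hc2; omega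
    · omega
  by_cases hk : k < N
  · ext a b
    rw [Matrix.mul_apply, Matrix.mul_apply]
    let c0 : Fin (N + 1) := ⟨k + 1, by omega⟩
    let d0 : Fin (N + 1) := ⟨k, by omega⟩
    have hL : ∑ c, Ymat N q F K a c * oF N q F k c b
        = q ^ (-pr b k) • (Yent q F K a b * F k)
          + (if (b : ℕ) = k then Yent q F K a (k + 1) else 0) := by
      have h1 : ∀ c : Fin (N + 1), Ymat N q F K a c * oF N q F k c b
          = (if c = b then q ^ (-pr b k) • (Yent q F K a b * F k) else 0)
            + (if c = c0 then (if (b : ℕ) = k then Yent q F K a (k + 1) else 0) else 0) := by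
        intro c
        have e1 : Ymat N q F K a c = Yent q F K a c := rfl
        have e2 : oF N q F k c b = (if c = b then q ^ (-pr c k) • F k else 0)
          + (if (c : ℕ) = k + 1 ∧ (b : ℕ) = k then 1 else 0) := rfl
        rw [e1, e2, mul_add]
        congr 1
        · by_cases hc : c = b
          · rw [if_pos hc, if_pos hc, hc, mul_smul_comm]
          · rw [if_neg hc, if_neg hc, mul_zero]
        · by_cases hc : c = c0
          · rw [if_pos hc]
            have hc' : (c : ℕ) = k + 1 := by rw [hc]
            by_cases hb : (b : ℕ) = k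
            · rw [if_pos ⟨hc', hb⟩, if_pos hb, mul_one, hc']
            · rw [if_neg (fun hh => hb hh.2), if_neg hb, mul_zero]
          · rw [if_neg hc]
            have hc' : ¬ (c : ℕ) = k + 1 := fun hh => hc (Fin.ext hh)
            rw [if_neg (fun hh => hc' hh.1), mul_zero]
      rw [Finset.sum_congr rfl fun c _ => h1 c, Finset.sum_add_distrib, Finset.sum_ite_eq',
        Finset.sum_ite_eq', if_pos (Finset.mem_univ _), if_pos (Finset.mem_univ _)]
    have hR : ∑ c, dF N l F K k a c * Ymat N q F K c b
        = (if (a : ℕ) = k + 1 then K (k + 1) * ki l K k * Yent q F K k b else 0)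
          + F k * Yent q F K a b := by
      have h1 : ∀ c : Fin (N + 1), dF N l F K k a c * Ymat N q F K c b
          = (if c = d0 then (if (a : ℕ) = k + 1 then K (k + 1) * ki l K k * Yent q F K k b else 0)
              else 0) + (if c = a then F k * Yent q F K a b else 0) := by
        intro c
        have e1 : Ymat N q F K c b = Yent q F K c b := rfl
        have e2 : dF N l F K k a c = (if a = c then F k else 0)
          + (if (a : ℕ) = k + 1 ∧ (c : ℕ) = k then K (k + 1) * ki l K k else 0) := rfl
        rw [e1, e2, add_mul, add_comm]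
        congr 1
        · by_cases hc : c = d0
          · rw [if_pos hc]
            have hc' : (c : ℕ) = k := by rw [hc]
            by_cases ha : (a : ℕ) = k + 1
            · rw [if_pos ⟨ha, hc'⟩, if_pos ha, hc']
            · rw [if_neg (fun hh => ha hh.1), if_neg ha, zero_mul]
          · rw [if_neg hc]
            have hc' : ¬ (c : ℕ) = k := fun hh => hc (Fin.ext hh)
            rw [if_neg (fun hh => hc' hh.2), zero_mul]
        · by_cases hc : c = a
          · rw [if_pos hc, if_pos hc.symm, hc]
          · rw [if_neg hc, if_neg (fun hh => hc hh.symm), zero_mul]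
      rw [Finset.sum_congr rfl fun c _ => h1 c, Finset.sum_add_distrib, Finset.sum_ite_eq',
        Finset.sum_ite_eq', if_pos (Finset.mem_univ _), if_pos (Finset.mem_univ _)]
    rw [hL, hR]
    exact ent hRO hKI hl hq hq2 h
  · have hF : F k = 0 := h.F_out k (by omega)
    have e1 : oF N q F k = 0 := by
      ext a b
      have e2 : oF N q F k a b = (if a = b then q ^ (-pr a k) • F k else 0)
          + (if (a : ℕ) = k + 1 ∧ (b : ℕ) = k then 1 else 0) := rfl
      rw [e2, hF, smul_zero, ite_self, if_neg (by have := a.isLt; omega), add_zero]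
      rfl
    have e3 : dF N l F K k = 0 := by
      ext a b
      have e2 : dF N l F K k a b = (if a = b then F k else 0)
          + (if (a : ℕ) = k + 1 ∧ (b : ℕ) = k then K (k + 1) * ki l K k else 0) := rfl
      rw [e2, hF, ite_self, if_neg (by have := a.isLt; omega), add_zero]
      rfl
    rw [e1, e3, Matrix.mul_zero, Matrix.zero_mul]

end Pool.Agent.Helper79.SQ
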