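import Pool.Agent.Helper19.SQ.GoalsH

/-! Packet SQ-GENVS (MP_bb32d1_al). -/

namespace Pool.Agent.Helper79.SQ

open Pool.Agent.Helper19.SQ

theorem s_genvs : S_GENVS := by
  intro N l q D hq hcup M _ _ _ _ a m p
  have key : ∀ i : Fin (N + 1), (tv D.ep p (a • m)) i
      = (∑ k : Fin (N + 1), (q ^ (2 * ((k : ℕ) : ℤ) - 2 * ((p : ℕ) : ℤ)) • D.dl a p k)
          • tv D.ep k m) i := by
    intro i
    have h1 : (∑ k : Fin (N + 1), (q ^ (2 * ((k : ℕ) : ℤ) - 2 * ((p : ℕ) : ℤ)) • D.dl a p k)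
          • tv D.ep k m) i
        = ∑ k : Fin (N + 1), ((q ^ (2 * ((k : ℕ) : ℤ) - 2 * ((p : ℕ) : ℤ)) • D.dl a p k)
          • tv D.ep k m) i := by
      exact Finset.sum_apply i Finset.univ
        (fun k : Fin (N + 1) => ((q ^ (2 * ((k : ℕ) : ℤ) - 2 * ((p : ℕ) : ℤ)) • D.dl a p k)
          • tv D.ep k m : Fin (N + 1) → M))
    rw [h1]
    have h2 : ∀ k : Fin (N + 1),
        ((q ^ (2 * ((k : ℕ) : ℤ) - 2 * ((p : ℕ) : ℤ)) • D.dl a p k) • tv D.ep k m) i
        = (((q ^ (2 * (p : ℕ)))⁻¹ * q ^ (2 * (k : ℕ))) • D.ep (D.dl a p k) i k) • m := by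
      intro k
      rw [Ten.smul_apply]
      rw [Finset.sum_eq_single k]
      · have e1 : tv D.ep k m k = m := by simp [tv]
        rw [e1]
        have e2 : q ^ (2 * ((k : ℕ) : ℤ) - 2 * ((p : ℕ) : ℤ))
            = (q ^ (2 * (p : ℕ)))⁻¹ * q ^ (2 * (k : ℕ)) := by
          rw [zpow_sub₀ hq]
          have a1 : (2 * ((k : ℕ) : ℤ)) = ((2 * (k : ℕ) : ℕ) : ℤ) := by push_cast; ring
          have a2 : (2 * ((p : ℕ) : ℤ)) = ((2 * (p : ℕ) : ℕ) : ℤ) := by push_cast; ring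
          rw [a1, a2, zpow_natCast, zpow_natCast]
          field_simp
        rw [e2, map_smul, Matrix.smul_apply]
      · intro j _ hj
        have e1 : tv D.ep k m j = 0 := by simp [tv, hj]
        rw [e1, smul_zero]
      · intro h
        exact absurd (Finset.mem_univ k) h
    rw [Finset.sum_congr rfl (fun k _ => h2 k), ← Finset.sum_smul]
    have h3 : ∑ k : Fin (N + 1), ((q ^ (2 * (p : ℕ)))⁻¹ * q ^ (2 * (k : ℕ))) •
        D.ep (D.dl a p k) i k = if i = p then a else 0 := by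
      have : ∑ k : Fin (N + 1), ((q ^ (2 * (p : ℕ)))⁻¹ * q ^ (2 * (k : ℕ))) •
        D.ep (D.dl a p k) i k = (q ^ (2 * (p : ℕ)))⁻¹ • ∑ k : Fin (N + 1), q ^ (2 * (k : ℕ)) •
        D.ep (D.dl a p k) i k := by
        rw [Finset.smul_sum]
        exact Finset.sum_congr rfl fun k _ => by rw [mul_smul]
      rw [this, hcup a i p]
      split_ifs with h
      · rw [smul_smul, inv_mul_cancel₀ (pow_ne_zero _ hq), one_smul]
      · rw [smul_zero]
    rw [h3]
    by_cases h : i = p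
    · simp [tv, h]
    · simp [tv, h]
  exact funext key

end Pool.Agent.Helper79.SQ
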