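import Pool.Agent.Helper39.SQ.Goals

/-! MP_9b2a83_an, packet SQ-BAD : few maps have a position sharing `N + h` digits with `K` points. -/

set_option autoImplicit false

namespace Pool.Agent.Helper79.SQ.BAD

open Pool.Agent.Helper39.SQ Pool.Agent.Helper71.SN Pool.Agent.Helper39.Net Finset

open Classical in
/-- the union bound over the sets of `m` indices -/
theorem card_many {κ S : Type} [Fintype κ] [Fintype S] (Q : Finset S) (m : ℕ) :
    (univ.filter fun F : κ → S => m ≤ (univ.filter fun k : κ => F k ∈ Q).card).card ≤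
      if m ≤ Fintype.card κ then
        (Fintype.card κ * Q.card) ^ m * Fintype.card S ^ (Fintype.card κ - m) else 0 := by
  split_ifs with hm
  · have hsub : (univ.filter fun F : κ → S => m ≤ (univ.filter fun k : κ => F k ∈ Q).card) ⊆
        (powersetCard m (univ : Finset κ)).biUnion
          (fun A => Fintype.piFinset (fun k => if k ∈ A then Q else univ)) := by
      intro F hF
      rw [mem_filter] at hF
      obtain ⟨A, hA, hAm⟩ := Finset.exists_subset_card_eq hF.2
      rw [mem_biUnion]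
      refine ⟨A, ?_, ?_⟩
      · rw [mem_powersetCard]
        exact ⟨Finset.subset_univ _, hAm⟩
      · rw [Fintype.mem_piFinset]
        intro k
        by_cases hk : k ∈ A
        · rw [if_pos hk]
          exact (mem_filter.1 (hA hk)).2
        · rw [if_neg hk]
          exact mem_univ _
    refine (card_le_card hsub).trans (card_biUnion_le.trans ?_)
    have h1 : ∀ A ∈ powersetCard m (univ : Finset κ),
        (Fintype.piFinset (fun k => if k ∈ A then Q else univ)).card =
          Q.card ^ m * Fintype.card S ^ (Fintype.card κ - m) := by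
      intro A hA
      rw [mem_powersetCard] at hA
      rw [Fintype.card_piFinset]
      have h2 : ∀ k ∈ (univ : Finset κ), (if k ∈ A then Q else univ).card =
          if k ∈ A then Q.card else Fintype.card S := by
        intro k _
        split_ifs
        · rfl
        · rw [card_univ]
      rw [Finset.prod_congr rfl h2, Finset.prod_ite, prod_const, prod_const]
      have h3 : (univ.filter (fun k => k ∈ A)) = A := by
        ext k
        simp
      have h4 : (univ.filter (fun k => k ∉ A)).card = Fintype.card κ - m := by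
        have h5 : (univ.filter (fun k => k ∉ A)) = univ \ A := by
          ext k
          simp
        rw [h5, card_sdiff_of_subset (subset_univ _), card_univ, hA.2]
      rw [h3, h4, hA.2]
    rw [Finset.sum_congr rfl h1, sum_const, card_powersetCard, card_univ, smul_eq_mul, mul_pow]
    have h6 : (Fintype.card κ).choose m ≤ Fintype.card κ ^ m := Nat.choose_le_pow _ _
    calc (Fintype.card κ).choose m * (Q.card ^ m * Fintype.card S ^ (Fintype.card κ - m))
        ≤ Fintype.card κ ^ m * (Q.card ^ m * Fintype.card S ^ (Fintype.card κ - m)) :=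
          Nat.mul_le_mul_right _ h6
      _ = _ := by ring
  · rw [Nat.le_zero, card_eq_zero, filter_eq_empty_iff]
    intro F _ h
    exact hm (h.trans ((card_le_card (filter_subset _ _)).trans (by rw [card_univ])))

/-- the number of the elements of a cell -/
theorem card_cell (h : G_CNT2) (b D j : ℕ) (hb : 1 ≤ b) (hj : j ≤ D) (t : Fin (b ^ D)) :
    (univ.filter fun t' : Fin (b ^ D) => j ≤ agr b D t' t).card = b ^ (D - j) := by
  rw [← h b D j t hb hj t.2]
  refine Finset.card_bij (fun t' _ => t'.val) ?_ ?_ ?_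
  · intro t' ht'
    rw [mem_filter] at ht' ⊢
    refine ⟨mem_range.2 t'.2, ?_⟩
    rw [agr_comm]
    exact ht'.2
  · intro a _ a' _ haa
    exact Fin.ext haa
  · intro a ha
    rw [mem_filter, mem_range] at ha
    refine ⟨⟨a, ha.1⟩, ?_, rfl⟩
    rw [mem_filter]
    refine ⟨mem_univ _, ?_⟩
    rw [agr_comm]
    exact ha.2

/-- the number of the positions sharing `m` digits with a given one -/
theorem card_Q (h : G_CNT2) (d D m : ℕ) (s : Fin d → Fin (2 ^ D)) :
    (univ.filter fun z : Fin d → Fin (2 ^ D) => m ≤ ∑ c, agr 2 D (z c) (s c)).card * 2 ^ m ≤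
      (D + 1) ^ d * 2 ^ (D * d) := by
  classical
  let A : Finset (Fin d → Fin (D + 1)) := univ.filter fun a => m ≤ ∑ c, (a c).val
  let R : (Fin d → Fin (D + 1)) → Finset (Fin d → Fin (2 ^ D)) := fun a =>
    Fintype.piFinset (fun c => univ.filter fun t : Fin (2 ^ D) => (a c).val ≤ agr 2 D t (s c))
  have hsub : (univ.filter fun z : Fin d → Fin (2 ^ D) => m ≤ ∑ c, agr 2 D (z c) (s c)) ⊆
      A.biUnion R := by
    intro z hz
    rw [mem_filter] at hz
    rw [mem_biUnion]
    refine ⟨fun c => ⟨agr 2 D (z c) (s c), Nat.lt_succ_of_le (agr_le 2 D _ _)⟩, ?_, ?_⟩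
    · rw [mem_filter]
      exact ⟨mem_univ _, hz.2⟩
    · rw [Fintype.mem_piFinset]
      intro c
      rw [mem_filter]
      exact ⟨mem_univ _, le_refl _⟩
  have hR : ∀ a ∈ A, (R a).card * 2 ^ m ≤ 2 ^ (D * d) := by
    intro a ha
    rw [mem_filter] at ha
    have h1 : (R a).card = ∏ c, 2 ^ (D - (a c).val) := by
      change (Fintype.piFinset _).card = _
      rw [Fintype.card_piFinset]
      refine Finset.prod_congr rfl fun c _ => ?_
      exact card_cell h 2 D _ (by norm_num) (Nat.lt_succ_iff.1 (a c).2) (s c)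
    rw [h1, Finset.prod_pow_eq_pow_sum, ← pow_add]
    refine Nat.pow_le_pow_right (by norm_num) ?_
    have h2 : ∑ c, (D - (a c).val) + ∑ c, (a c).val = D * d := by
      rw [← Finset.sum_add_distrib]
      have h3 : ∀ c ∈ (univ : Finset (Fin d)), D - (a c).val + (a c).val = D := by
        intro c _
        have := (a c).2
        omega
      rw [Finset.sum_congr rfl h3, sum_const, card_univ, Fintype.card_fin, smul_eq_mul, mul_comm]
    have := ha.2
    omega
  calc _ ≤ (A.biUnion R).card * 2 ^ m := Nat.mul_le_mul_right _ (card_le_card hsub)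
    _ ≤ (∑ a ∈ A, (R a).card) * 2 ^ m := Nat.mul_le_mul_right _ card_biUnion_le
    _ = ∑ a ∈ A, (R a).card * 2 ^ m := Finset.sum_mul _ _ _
    _ ≤ ∑ a ∈ A, 2 ^ (D * d) := Finset.sum_le_sum hR
    _ = A.card * 2 ^ (D * d) := by rw [sum_const, smul_eq_mul]
    _ ≤ (D + 1) ^ d * 2 ^ (D * d) := by
      refine Nat.mul_le_mul_right _ ?_
      refine (card_le_univ A).trans (le_of_eq ?_)
      rw [Fintype.card_fun, Fintype.card_fin, Fintype.card_fin]

/-- SQ-BAD -/
theorem thm : Pool.Agent.Helper71.SN.G_CNT2 → Pool.Agent.Helper39.SQ.G_BAD := by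
  classical
  intro hc d D N h K hN hK
  have hS : Fintype.card (Fin d → Fin (2 ^ D)) = 2 ^ (D * d) := by
    rw [Fintype.card_fun, Fintype.card_fin, Fintype.card_fin, ← pow_mul]
  -- the bound for one position
  have hone : ∀ s : Fin d → Fin (2 ^ D), (univ.filter fun F : Mp d D N =>
      K ≤ (univ.filter fun k : Fin (2 ^ N) => F k ∈
        (univ.filter fun z : Fin d → Fin (2 ^ D) =>
          N + h ≤ ∑ c, agr 2 D (z c) (s c))).card).card * 2 ^ (h * K) ≤
      (D + 1) ^ (d * K) * 2 ^ (D * d * 2 ^ N) := by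
    intro s
    set Q := (univ.filter fun z : Fin d → Fin (2 ^ D) =>
      N + h ≤ ∑ c, agr 2 D (z c) (s c)) with hQ
    have hQc : Q.card * 2 ^ (N + h) ≤ (D + 1) ^ d * 2 ^ (D * d) := card_Q hc d D (N + h) s
    have h1 := card_many (κ := Fin (2 ^ N)) (S := Fin d → Fin (2 ^ D)) Q K
    rw [Fintype.card_fin] at h1
    refine (Nat.mul_le_mul_right _ (le_trans (le_of_eq ?_) h1)).trans ?_
    · congr 1
      ext F
      simp only [mem_filter, mem_univ, true_and]
      refine Iff.of_eq ?_
      congr!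
    split_ifs with hm
    · rw [hS]
      have h3 : 2 ^ N * Q.card * 2 ^ h ≤ (D + 1) ^ d * 2 ^ (D * d) := by
        calc 2 ^ N * Q.card * 2 ^ h = Q.card * 2 ^ (N + h) := by ring
          _ ≤ _ := hQc
      calc (2 ^ N * Q.card) ^ K * (2 ^ (D * d)) ^ (2 ^ N - K) * 2 ^ (h * K)
          = (2 ^ N * Q.card * 2 ^ h) ^ K * (2 ^ (D * d)) ^ (2 ^ N - K) := by
            rw [mul_pow (2 ^ N * Q.card) (2 ^ h), ← pow_mul 2 h K]
            ring
        _ ≤ ((D + 1) ^ d * 2 ^ (D * d)) ^ K * (2 ^ (D * d)) ^ (2 ^ N - K) :=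
            Nat.mul_le_mul_right _ (Nat.pow_le_pow_left h3 _)
        _ = (D + 1) ^ (d * K) * ((2 ^ (D * d)) ^ K * (2 ^ (D * d)) ^ (2 ^ N - K)) := by
            rw [mul_pow, ← pow_mul (D + 1) d K, mul_assoc]
        _ = (D + 1) ^ (d * K) * 2 ^ (D * d * 2 ^ N) := by
            rw [← pow_add (2 ^ (D * d)), Nat.add_sub_cancel' hm, ← pow_mul]
    · rw [zero_mul]
      exact Nat.zero_le _
  -- the union over the positions
  have hsub : (univ.filter fun F : Mp d D N => ∃ s : Fin d → Fin (2 ^ D),
      K ≤ (univ.filter fun k : Fin (2 ^ N) =>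
        N + h ≤ ∑ c, agr 2 D (F k c) (s c)).card) ⊆
      univ.biUnion (fun s : Fin d → Fin (2 ^ D) => univ.filter fun F : Mp d D N =>
      K ≤ (univ.filter fun k : Fin (2 ^ N) => F k ∈
        (univ.filter fun z : Fin d → Fin (2 ^ D) =>
          N + h ≤ ∑ c, agr 2 D (z c) (s c))).card) := by
    intro F hF
    rw [mem_filter] at hF
    obtain ⟨-, s, hs⟩ := hF
    rw [mem_biUnion]
    refine ⟨s, mem_univ _, ?_⟩
    rw [mem_filter]
    refine ⟨mem_univ _, ?_⟩
    refine hs.trans (le_of_eq ?_)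
    congr 1
    refine Finset.filter_congr fun i _ => ?_
    rw [mem_filter]
    exact ⟨fun h => ⟨mem_univ _, h⟩, fun h => h.2⟩
  have hfin : (univ.filter fun F : Mp d D N => ∃ s : Fin d → Fin (2 ^ D),
      K ≤ (univ.filter fun k : Fin (2 ^ N) =>
        N + h ≤ ∑ c, agr 2 D (F k c) (s c)).card).card * 2 ^ (h * K) ≤
      2 ^ (D * d) * ((D + 1) ^ (d * K) * 2 ^ (D * d * 2 ^ N)) := by
    refine (Nat.mul_le_mul_right _ ((card_le_card hsub).trans card_biUnion_le)).trans ?_
    rw [Finset.sum_mul]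
    refine (Finset.sum_le_sum fun s _ => hone s).trans ?_
    rw [sum_const, card_univ, smul_eq_mul, hS]
  have hpos : 0 < 2 ^ (h * K) := Nat.pow_pos (by norm_num)
  refine Nat.le_of_mul_le_mul_right ?_ hpos
  have e1 : 2 ^ (2 * N) * 2 ^ (2 * d + 6) ≤ 2 ^ (2 * D * d + 2 * d + 6) := by
    rw [← pow_add]
    refine Nat.pow_le_pow_right (by norm_num) ?_
    have : 2 * D * d = 2 * (D * d) := by ring
    omega
  generalize hB : (univ.filter fun F : Mp d D N => ∃ s : Fin d → Fin (2 ^ D),
      K ≤ (univ.filter fun k : Fin (2 ^ N) =>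
        N + h ≤ ∑ c, agr 2 D (F k c) (s c)).card).card = B at hfin
  have hB' : (univ.filter fun F : Mp d D N => ∃ s : Fin d → Fin (2 ^ D),
      K ≤ (univ.filter fun k : Fin (2 ^ N) =>
        N + h ≤ ∑ c, agr 2 D (F k c) (s c)).card).card = B := hB
  have key : B * (2 ^ (2 * N) * 2 ^ (2 * d + 6)) * 2 ^ (h * K) ≤
      2 ^ (D * d * 2 ^ N) * 2 ^ (h * K) := by
    calc B * (2 ^ (2 * N) * 2 ^ (2 * d + 6)) * 2 ^ (h * K)
        = (B * 2 ^ (h * K)) * (2 ^ (2 * N) * 2 ^ (2 * d + 6)) := by ring
      _ ≤ (2 ^ (D * d) * ((D + 1) ^ (d * K) * 2 ^ (D * d * 2 ^ N))) *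
          2 ^ (2 * D * d + 2 * d + 6) := Nat.mul_le_mul hfin e1
      _ = 2 ^ (D * d * 2 ^ N) * ((D + 1) ^ (d * K) * 2 ^ (3 * D * d + 2 * d + 6)) := by
          have e2 : (2 : ℕ) ^ (3 * D * d + 2 * d + 6) =
              2 ^ (D * d) * 2 ^ (2 * D * d + 2 * d + 6) := by
            rw [← pow_add]
            congr 1
            ring
          rw [e2]
          ring
      _ ≤ 2 ^ (D * d * 2 ^ N) * 2 ^ (h * K) := Nat.mul_le_mul_left _ hK
  convert key using 4

end Pool.Agent.Helper79.SQ.BAD
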