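import Pool.Agent.Helper41.SQ.GoalsN

/-! Packet SQN-CLF (MP_bb32d1_al): closure of the chain. -/

set_option autoImplicit false

namespace Pool.Agent.Helper79.SQN

open Matrix Pool.Agent.Helper19.SQ Pool.Agent.Helper34.SQ Pool.Agent.Helper41.SQ

theorem xi_comm {A : Type} [Ring A] [Algebra ℂ A] {ι : Type} [Fintype ι] [DecidableEq ι]
    (h1 : S_TOW) (S : Sd A ι) (j : ℕ) (y : A) :
    nH S (tow S j).H y * run (nR (tow S j).r (tow S j).R) 0 j =
      run (nR (tow S j).r (tow S j).R) 0 j * nH S (tow S j).H y := by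
  apply run_commute
  intro i _ _
  exact ((h1 A ι S (j + 1)).cR i y).symm

theorem n_clf (h1 : S_TOW) (h2 : S_SGF) : S_CLF := by
  intro A _ _ ι _ _ S τ j k x
  obtain ⟨W, hW⟩ : ∃ W, W = run (nR (tow S j).r (tow S j).R) 0 j * nH S (tow S j).H x := ⟨_, rfl⟩
  have e1 : ∀ p i, sge S τ (fun _ => 1) j p i (S.z k p i * x) =
      ∑ K, τ (∑ r, ∑ Q, (tow S j).H (S.D (S.z k p i) i r) K Q * W (r, Q) (p, K)) := by
    intro p i
    rw [h2]
    refine Finset.sum_congr rfl fun K _ => ?_
    congr 1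
    rw [map_mul, ← mul_assoc, ← xi_comm h1, mul_assoc, ← hW, Matrix.mul_apply,
      Fintype.sum_prod_type]
    rfl
  have e2 : ∑ p, ∑ i, sge S τ (fun _ => 1) j p i (S.z k p i * x) =
      τ (∑ p, ∑ K, ∑ r, ∑ Q, (tow S j).H ((S.X ^ k) p r) K Q * W (r, Q) (p, K)) := by
    rw [map_sum]
    refine Finset.sum_congr rfl fun p _ => ?_
    rw [map_sum]
    calc ∑ i, sge S τ (fun _ => 1) j p i (S.z k p i * x)
        = ∑ i, ∑ K, τ (∑ r, ∑ Q, (tow S j).H (S.D (S.z k p i) i r) K Q * W (r, Q) (p, K)) :=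
          Finset.sum_congr rfl fun i _ => e1 p i
      _ = ∑ K, ∑ i, τ (∑ r, ∑ Q, (tow S j).H (S.D (S.z k p i) i r) K Q * W (r, Q) (p, K)) :=
          Finset.sum_comm
      _ = _ := by
          refine Finset.sum_congr rfl fun K _ => ?_
          rw [← map_sum]
          congr 1
          rw [Finset.sum_comm]
          refine Finset.sum_congr rfl fun r _ => ?_
          rw [Finset.sum_comm]
          refine Finset.sum_congr rfl fun Q _ => ?_
          rw [← Finset.sum_mul, S.zX, map_sum, Matrix.sum_apply]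
  rw [e2]
  congr 1
  rw [mul_assoc, ← hW]
  have e3 : (nX S (tow S j).H (tow S j).X 0) ^ k = PhG (tow S j).H (S.X ^ k) := by
    rw [map_pow]
    rfl
  rw [e3, Matrix.trace, Fintype.sum_prod_type]
  refine Finset.sum_congr rfl fun p _ => Finset.sum_congr rfl fun K _ => ?_
  rw [Matrix.diag_apply, Matrix.mul_apply, Fintype.sum_prod_type]
  rfl

end Pool.Agent.Helper79.SQN
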