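import Pool.Agent.Helper4.SQ.GoalsL

/-!
# Project SQ, packet ZL: combinatorics of quadruples, one bracket is enough
-/

set_option autoImplicit false

namespace Pool.Agent.Helper79.SQ

open Pool.Agent.Helper4.SQ

section quad

variable {I : Type}

theorem nd4 {a b c d : I} (h1 : a ≠ b) (h2 : a ≠ c) (h3 : a ≠ d) (h4 : b ≠ c) (h5 : b ≠ d)
    (h6 : c ≠ d) : [a, b, c, d].Nodup := by
  simp [h1, h2, h3, h4, h5, h6]

theorem nd4' {a b c d : I} (h : [a, b, c, d].Nodup) :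
    a ≠ b ∧ a ≠ c ∧ a ≠ d ∧ b ≠ c ∧ b ≠ d ∧ c ≠ d := by
  simp only [List.nodup_cons, List.mem_cons, List.not_mem_nil, or_false, not_or, not_false_eq_true,
    List.nodup_nil, and_true] at h
  obtain ⟨⟨h1, h2, h3⟩, ⟨h4, h5⟩, h6⟩ := h
  exact ⟨h1, h2, h3, h4, h5, h6⟩

theorem nd5 {a b c d f : I} (h1 : a ≠ b) (h2 : a ≠ c) (h3 : a ≠ d) (h4 : b ≠ c) (h5 : b ≠ d)
    (h6 : c ≠ d) (g1 : f ≠ a) (g2 : f ≠ b) (g3 : f ≠ c) (g4 : f ≠ d) : [a, b, c, d, f].Nodup := by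
  simp [h1, h2, h3, h4, h5, h6, g1.symm, g2.symm, g3.symm, g4.symm]

theorem nd5' {a b c d f : I} (h : [a, b, c, d, f].Nodup) :
    (a ≠ b ∧ a ≠ c ∧ a ≠ d ∧ b ≠ c ∧ b ≠ d ∧ c ≠ d) ∧ f ≠ a ∧ f ≠ b ∧ f ≠ c ∧ f ≠ d := by
  simp only [List.nodup_cons, List.mem_cons, List.not_mem_nil, or_false, not_or, not_false_eq_true,
    List.nodup_nil, and_true] at h
  obtain ⟨⟨h1, h2, h3, g1⟩, ⟨h4, h5, g2⟩, ⟨h6, g3⟩, g4⟩ := h
  exact ⟨⟨h1, h2, h3, h4, h5, h6⟩, Ne.symm g1, Ne.symm g2, Ne.symm g3, Ne.symm g4⟩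

theorem fifth [Fintype I] [DecidableEq I] (h : 5 ≤ Fintype.card I) (a b c d : I) :
    ∃ f, f ≠ a ∧ f ≠ b ∧ f ≠ c ∧ f ≠ d := by
  by_contra hcon
  push Not at hcon
  have h1 : (Finset.univ : Finset I) ⊆ {a, b, c, d} := by
    intro x _
    simp only [Finset.mem_insert, Finset.mem_singleton]
    by_cases h1 : x = a
    · exact Or.inl h1
    · by_cases h2 : x = b
      · exact Or.inr (Or.inl h2)
      · by_cases h3 : x = c
        · exact Or.inr (Or.inr (Or.inl h3))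
        · exact Or.inr (Or.inr (Or.inr (hcon x h1 h2 h3)))
  have h2 := Finset.card_le_card h1
  have h3 : ({a, b, c, d} : Finset I).card ≤ 4 := Finset.card_le_four
  rw [Finset.card_univ] at h2
  omega

end quad

theorem sQUAD : S_QUAD := by
  classical
  intro I _ _ P hI hR
  -- replacements
  have r1 : ∀ a b c d f, [a, b, c, d].Nodup → f ≠ a → f ≠ b → f ≠ c → f ≠ d → P a b c d →
      P f b c d := by
    intro a b c d f h g1 g2 g3 g4 hP
    obtain ⟨h1, h2, h3, h4, h5, h6⟩ := nd4' h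
    exact (hR a b c d f (nd5 h1 h2 h3 h4 h5 h6 g1 g2 g3 g4) hP).1
  have r2 : ∀ a b c d f, [a, b, c, d].Nodup → f ≠ a → f ≠ b → f ≠ c → f ≠ d → P a b c d →
      P a f c d := by
    intro a b c d f h g1 g2 g3 g4 hP
    obtain ⟨h1, h2, h3, h4, h5, h6⟩ := nd4' h
    exact (hR a b c d f (nd5 h1 h2 h3 h4 h5 h6 g1 g2 g3 g4) hP).2.1
  have r3 : ∀ a b c d f, [a, b, c, d].Nodup → f ≠ a → f ≠ b → f ≠ c → f ≠ d → P a b c d →
      P a b f d := by
    intro a b c d f h g1 g2 g3 g4 hP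
    obtain ⟨h1, h2, h3, h4, h5, h6⟩ := nd4' h
    exact (hR a b c d f (nd5 h1 h2 h3 h4 h5 h6 g1 g2 g3 g4) hP).2.2.1
  have r4 : ∀ a b c d f, [a, b, c, d].Nodup → f ≠ a → f ≠ b → f ≠ c → f ≠ d → P a b c d →
      P a b c f := by
    intro a b c d f h g1 g2 g3 g4 hP
    obtain ⟨h1, h2, h3, h4, h5, h6⟩ := nd4' h
    exact (hR a b c d f (nd5 h1 h2 h3 h4 h5 h6 g1 g2 g3 g4) hP).2.2.2
  -- exchanges
  have e12 : ∀ a b c d, [a, b, c, d].Nodup → P a b c d → P b a c d := by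
    intro a b c d h hP
    obtain ⟨h1, h2, h3, h4, h5, h6⟩ := nd4' h
    obtain ⟨f, g1, g2, g3, g4⟩ := fifth hI a b c d
    have p1 := r1 a b c d f h g1 g2 g3 g4 hP
    have p2 := r2 f b c d a (nd4 g2 g3 g4 h4 h5 h6) g1.symm h1 h2 h3 p1
    exact r1 f a c d b (nd4 g1 g3 g4 h2 h3 h6) g2.symm h1.symm h4 h5 p2
  have e13 : ∀ a b c d, [a, b, c, d].Nodup → P a b c d → P c b a d := by
    intro a b c d h hP
    obtain ⟨h1, h2, h3, h4, h5, h6⟩ := nd4' h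
    obtain ⟨f, g1, g2, g3, g4⟩ := fifth hI a b c d
    have p1 := r1 a b c d f h g1 g2 g3 g4 hP
    have p2 := r3 f b c d a (nd4 g2 g3 g4 h4 h5 h6) g1.symm h1 h2 h3 p1
    exact r1 f b a d c (nd4 g2 g1 g4 h1.symm h5 h3) g3.symm h4.symm h2.symm h6 p2
  have e14 : ∀ a b c d, [a, b, c, d].Nodup → P a b c d → P d b c a := by
    intro a b c d h hP
    obtain ⟨h1, h2, h3, h4, h5, h6⟩ := nd4' h
    obtain ⟨f, g1, g2, g3, g4⟩ := fifth hI a b c d
    have p1 := r1 a b c d f h g1 g2 g3 g4 hP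
    have p2 := r4 f b c d a (nd4 g2 g3 g4 h4 h5 h6) g1.symm h1 h2 h3 p1
    exact r1 f b c a d (nd4 g2 g3 g1 h4 h1.symm h2.symm) g4.symm h5.symm h6.symm h3.symm p2
  have e23 : ∀ a b c d, [a, b, c, d].Nodup → P a b c d → P a c b d := by
    intro a b c d h hP
    obtain ⟨h1, h2, h3, h4, h5, h6⟩ := nd4' h
    obtain ⟨f, g1, g2, g3, g4⟩ := fifth hI a b c d
    have p1 := r2 a b c d f h g1 g2 g3 g4 hP
    have p2 := r3 a f c d b (nd4 g1.symm h2 h3 g3 g4 h6) h1.symm g2.symm h4 h5 p1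
    exact r2 a f b d c (nd4 g1.symm h1 h3 g2 g4 h5) h2.symm g3.symm h4.symm h6 p2
  have e24 : ∀ a b c d, [a, b, c, d].Nodup → P a b c d → P a d c b := by
    intro a b c d h hP
    obtain ⟨h1, h2, h3, h4, h5, h6⟩ := nd4' h
    obtain ⟨f, g1, g2, g3, g4⟩ := fifth hI a b c d
    have p1 := r2 a b c d f h g1 g2 g3 g4 hP
    have p2 := r4 a f c d b (nd4 g1.symm h2 h3 g3 g4 h6) h1.symm g2.symm h4 h5 p1
    exact r2 a f c b d (nd4 g1.symm h2 h1 g3 g2 h4.symm) h3.symm g4.symm h6.symm h5.symm p2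
  have e34 : ∀ a b c d, [a, b, c, d].Nodup → P a b c d → P a b d c := by
    intro a b c d h hP
    obtain ⟨h1, h2, h3, h4, h5, h6⟩ := nd4' h
    obtain ⟨f, g1, g2, g3, g4⟩ := fifth hI a b c d
    have p1 := r3 a b c d f h g1 g2 g3 g4 hP
    have p2 := r4 a b f d c (nd4 h1 g1.symm h3 g2.symm h5 g4) h2.symm h4.symm g3.symm h6 p1
    exact r3 a b f c d (nd4 h1 g1.symm h2 g2.symm h4 g3) h3.symm h5.symm g4.symm h6.symm p2
  intro a b c d h hP a' b' c' d' h'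
  obtain ⟨k1, k2, k3, k4, k5, k6⟩ := nd4' h'
  -- first entry
  have s1 : ∃ x y z, [a', x, y, z].Nodup ∧ P a' x y z := by
    obtain ⟨h1, h2, h3, h4, h5, h6⟩ := nd4' h
    by_cases c1 : a' = a
    · rw [c1]; exact ⟨b, c, d, h, hP⟩
    by_cases c2 : a' = b
    · rw [c2]; exact ⟨a, c, d, nd4 h1.symm h4 h5 h2 h3 h6, e12 a b c d h hP⟩
    by_cases c3 : a' = c
    · rw [c3]; exact ⟨b, a, d, nd4 h4.symm h2.symm h6 h1.symm h5 h3, e13 a b c d h hP⟩
    by_cases c4 : a' = d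
    · rw [c4]; exact ⟨b, c, a, nd4 h5.symm h6.symm h3.symm h4 h1.symm h2.symm, e14 a b c d h hP⟩
    exact ⟨b, c, d, nd4 c2 c3 c4 h4 h5 h6, r1 a b c d a' h c1 c2 c3 c4 hP⟩
  obtain ⟨x, y, z, hx, hPx⟩ := s1
  have s2 : ∃ y z, [a', b', y, z].Nodup ∧ P a' b' y z := by
    obtain ⟨h1, h2, h3, h4, h5, h6⟩ := nd4' hx
    by_cases c2 : b' = x
    · rw [c2]; exact ⟨y, z, hx, hPx⟩
    by_cases c3 : b' = y
    · rw [c3]; exact ⟨x, z, nd4 h2 h1 h3 h4.symm h6 h5, e23 a' x y z hx hPx⟩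
    by_cases c4 : b' = z
    · rw [c4]; exact ⟨y, x, nd4 h3 h2 h1 h6.symm h5.symm h4.symm, e24 a' x y z hx hPx⟩
    exact ⟨y, z, nd4 k1 h2 h3 c3 c4 h6, r2 a' x y z b' hx k1.symm c2 c3 c4 hPx⟩
  obtain ⟨y, z, hy, hPy⟩ := s2
  have s3 : ∃ z, [a', b', c', z].Nodup ∧ P a' b' c' z := by
    obtain ⟨h1, h2, h3, h4, h5, h6⟩ := nd4' hy
    by_cases c3 : c' = y
    · rw [c3]; exact ⟨z, hy, hPy⟩
    by_cases c4 : c' = z
    · rw [c4]; exact ⟨y, nd4 h1 h3 h2 h5 h4 h6.symm, e34 a' b' y z hy hPy⟩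
    exact ⟨z, nd4 h1 k2 h3 k4 h5 c4, r3 a' b' y z c' hy k2.symm k4.symm c3 c4 hPy⟩
  obtain ⟨z, hz, hPz⟩ := s3
  by_cases c4 : d' = z
  · rw [c4]; exact hPz
  exact r4 a' b' c' z d' hz k3.symm k5.symm k6.symm c4 hPz

theorem sZL : S_ZL := by
  classical
  intro I _ _ L _ _ G hI U W hU hW a b c d hnd h0
  -- the replacement property
  have key := sQUAD I (fun a b c d => ⁅U a b, W c d⁆ = 0) hI (by
    intro a b c d f hf h
    obtain ⟨⟨h1, h2, h3, h4, h5, h6⟩, g1, g2, g3, g4⟩ := nd5' hf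
    refine ⟨?_, ?_, ?_, ?_⟩
    · have e1 := leibniz_lie (G.e f a) (U a b) (W c d)
      rw [h, lie_zero, hU.rel f a a b g1 h1 (fun h => g2 h.2), if_pos rfl, if_neg g2, sub_zero,
        hW.rel f a c d g1 h6 (fun h => h2 h.1), if_neg h2, if_neg g4, sub_zero, lie_zero,
        add_zero] at e1
      exact e1.symm
    · have e1 := leibniz_lie (G.e b f) (U a b) (W c d)
      rw [h, lie_zero, hU.rel b f a b g2.symm h1 (fun h => g1 h.1), if_pos rfl, if_neg g1, zero_sub,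
        hW.rel b f c d g2.symm h6 (fun h => g3 h.1), if_neg g3, if_neg h5, sub_zero, lie_zero,
        add_zero, neg_lie] at e1
      exact neg_eq_zero.1 e1.symm
    · have e1 := leibniz_lie (G.e f c) (U a b) (W c d)
      rw [h, lie_zero, hU.rel f c a b g3 h1 (fun h => h2 h.1.symm), if_neg h2.symm, if_neg g2,
        sub_zero, hW.rel f c c d g3 h6 (fun h => g4 h.2), if_pos rfl, if_neg g4, sub_zero,
        zero_lie, zero_add] at e1
      exact e1.symm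
    · have e1 := leibniz_lie (G.e d f) (U a b) (W c d)
      rw [h, lie_zero, hU.rel d f a b g4.symm h1 (fun h => g1 h.1), if_neg g1, if_neg h5.symm,
        sub_zero, hW.rel d f c d g4.symm h6 (fun h => g3 h.1), if_neg g3, if_pos rfl, zero_sub,
        zero_lie, zero_add, lie_neg] at e1
      exact neg_eq_zero.1 e1.symm) a b c d hnd h0
  have hd : ∀ a b c d, a ≠ b → a ≠ c → a ≠ d → b ≠ c → b ≠ d → c ≠ d → ⁅U a b, W c d⁆ = 0 :=
    fun a b c d h1 h2 h3 h4 h5 h6 => key a b c d (nd4 h1 h2 h3 h4 h5 h6)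
  -- case `b = d`
  have hb : ∀ a b c, a ≠ b → c ≠ b → a ≠ c → ⁅U a b, W c b⁆ = 0 := by
    intro a b c h1 h2 h3
    obtain ⟨x, x1, x2, x3, -⟩ := fifth hI a b c c
    have e1 : W c b = -⁅G.e x b, W c x⁆ := by
      rw [hW.rel x b c x x2 x3.symm (fun h => h2 h.1.symm), if_neg h2.symm, if_pos rfl, zero_sub,
        neg_neg]
    have e2 : ⁅U a b, G.e x b⁆ = 0 := by
      rw [← lie_skew, hU.rel x b a b x2 h1 (fun h => h1 h.1.symm), if_neg h1.symm, if_neg x2,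
        sub_zero, neg_zero]
    rw [e1, lie_neg, leibniz_lie, e2, zero_lie, hd a b c x h1 h3 x1.symm h2.symm x2.symm x3.symm,
      lie_zero, add_zero, neg_zero]
  intro a b c d h1 h2 h3 h4
  by_cases hac : a = c
  · subst hac
    obtain ⟨x, x1, x2, x3, -⟩ := fifth hI a b d d
    have e1 : W a d = ⁅G.e a x, W x d⁆ := by
      rw [hW.rel a x x d x1.symm x3 (fun h => h4 h.2), if_pos rfl, if_neg h4, sub_zero]
    have e2 : ⁅U a b, G.e a x⁆ = 0 := by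
      rw [← lie_skew, hU.rel a x a b x1.symm h1 (fun h => x1 h.1), if_neg x1, if_neg h1, sub_zero,
        neg_zero]
    have e3 : ⁅U a b, W x d⁆ = 0 := by
      by_cases hbd : b = d
      · subst hbd
        exact hb a b x h1 x2 x1.symm
      · exact hd a b x d h1 x1.symm h4 x2.symm hbd x3
    rw [e1, leibniz_lie, e2, zero_lie, e3, lie_zero, add_zero]
  · by_cases hbd : b = d
    · subst hbd
      exact hb a b c h1 h2 hac
    · exact hd a b c d h1 hac h4 h3 hbd h2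

end Pool.Agent.Helper79.SQ
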